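import Pool.Agent.N612.PA.Defs
import Pool.Agent.N612.PA.Iso

/-!
# No countable projective algebra is universal

One plane set generates continuum many pairwise non-isomorphic projective algebras (see
`Pool.Agent.N612.PA.Code`): the set `P ⊆ ℕ` coded by `S_P` can be recovered from the image of `S_P`
under any isomorphism of the algebra generated by `S_P` onto a family of sets.  So the algebras
generated by the sets `S_P` cannot all be embedded in one countable algebra.
-/

namespace Pool.Agent.Results.MP_3db952_lc.NoUniversalAlgebra

open Pool.Agent.N612.PA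

/-- For every countable projective algebra `U` there is a countable projective algebra `A` which is
not isomorphic to any subalgebra `B` of `U`.  So there is no universal countable projective
algebra. -/
theorem result : ∀ U : Set (Set Plane), IsProjectiveAlgebra U → U.Countable →
    ∃ A : Set (Set Plane), IsProjectiveAlgebra A ∧ A.Countable ∧
      ∀ B : Set (Set Plane), IsProjectiveAlgebra B → B ⊆ U → ¬ Isomorphic A B := by
  intro U _ hU
  by_contra hcon
  push Not at hcon
  have h1 : ∀ P : Set ℕ, ∃ B : Set (Set Plane), B ⊆ U ∧ Isomorphic (alg P) B := by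
    intro P
    obtain ⟨B, _, hB1, hB2⟩ := hcon (alg P) (isProjectiveAlgebra_alg P) (countable_alg P)
    exact ⟨B, hB1, hB2⟩
  choose B hBU φ hφ using h1
  have h2 : Set.range (fun P : Set ℕ => φ P (codeSet P)) ⊆ U := by
    rintro _ ⟨P, rfl⟩
    exact hBU P ((hφ P).bijOn.mapsTo (code_mem_alg P))
  have h3 : Function.Injective (fun P : Set ℕ => φ P (codeSet P)) := by
    intro P Q hPQ
    rw [← decode_map P (hφ P), ← decode_map Q (hφ Q)]
    exact congrArg decode hPQ
  have h5 : (Set.range (fun P : Set ℕ => φ P (codeSet P))).Countable := hU.mono h2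
  have h4 : Countable (Set ℕ) := by
    have h6 := h5.to_subtype
    exact (Function.Injective.countable (f := fun P : Set ℕ =>
      (⟨φ P (codeSet P), P, rfl⟩ : Set.range (fun P : Set ℕ => φ P (codeSet P))))
      (fun P Q h => h3 (Subtype.ext_iff.1 h)))
  have h7 : Cardinal.mk (Set ℕ) ≤ Cardinal.aleph0 := Cardinal.mk_le_aleph0_iff.2 h4
  rw [Cardinal.mk_set, Cardinal.mk_nat] at h7
  exact absurd h7 (not_le.2 (Cardinal.cantor _))

end Pool.Agent.Results.MP_3db952_lc.NoUniversalAlgebra
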